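import Pool.Agent.QUD.StmtsC

/-!
# Row CRM of squad QUD: the Macdonald integral
-/

set_option autoImplicit false

namespace Pool.Agent.QUD.H25

open MeasureTheory Complex Filter Topology Set

/-- the substitution -/
noncomputable def ff (p : ℝ) : ℝ := Real.exp p / (2 * Real.cosh p)

theorem ff_pos (p : ℝ) : 0 < ff p := div_pos (Real.exp_pos p) (by linarith [Real.cosh_pos p])

theorem one_sub_ff (p : ℝ) : 1 - ff p = Real.exp (-p) / (2 * Real.cosh p) := by
  have h := Real.cosh_pos p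
  have h1 : 2 * Real.cosh p = Real.exp p + Real.exp (-p) := by
    rw [Real.cosh_eq]
    ring
  unfold ff
  rw [eq_div_iff (by linarith), sub_mul, div_mul_cancel₀ _ (by linarith), h1]
  ring

theorem ff_lt (p : ℝ) : 0 < 1 - ff p := by
  rw [one_sub_ff]
  exact div_pos (Real.exp_pos _) (by linarith [Real.cosh_pos p])

theorem ff_ratio (p : ℝ) : ff p / (1 - ff p) = Real.exp (2 * p) := by
  rw [one_sub_ff, ff]
  have h := Real.cosh_pos p
  rw [div_div_div_cancel_right₀ (by linarith), ← Real.exp_sub]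
  congr 1
  ring

theorem ff_deriv (p : ℝ) : HasDerivAt ff (1 / (2 * Real.cosh p ^ 2)) p := by
  have h := Real.cosh_pos p
  have h1 := (Real.hasDerivAt_exp p).div ((Real.hasDerivAt_cosh p).const_mul 2)
    (by linarith : (2 * Real.cosh p) ≠ 0)
  have h2 : (Real.exp p * (2 * Real.cosh p) - Real.exp p * (2 * Real.sinh p)) / (2 * Real.cosh p) ^ 2
      = 1 / (2 * Real.cosh p ^ 2) := by
    have h3 : Real.exp p * Real.exp (-p) = 1 := by
      rw [← Real.exp_add]
      simp
    have h4 : Real.cosh p - Real.sinh p = Real.exp (-p) := Real.cosh_sub_sinh p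
    have h5 : Real.exp p * (2 * Real.cosh p) - Real.exp p * (2 * Real.sinh p) = 2 := by
      linear_combination (2 * Real.exp p) * h4 + 2 * h3
    rw [h5]
    field_simp
  rw [h2] at h1
  exact h1

theorem ff_inj : Function.Injective ff := by
  intro a b hab
  have h1 := ff_ratio a
  rw [hab, ff_ratio b] at h1
  have := Real.exp_injective h1
  linarith

theorem ff_image : ff '' univ = Ioo 0 1 := by
  ext y
  constructor
  · rintro ⟨p, -, rfl⟩
    exact ⟨ff_pos p, by linarith [ff_lt p]⟩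
  · rintro ⟨h0, h1⟩
    refine ⟨Real.log (y / (1 - y)) / 2, mem_univ _, ?_⟩
    set p := Real.log (y / (1 - y)) / 2 with hp
    have h2 := ff_ratio p
    have h3 : Real.exp (2 * p) = y / (1 - y) := by
      rw [hp, mul_div_cancel₀ _ (by norm_num : (2 : ℝ) ≠ 0), Real.exp_log (div_pos h0 (by linarith))]
    rw [h3, div_eq_div_iff (ff_lt p).ne' (by linarith)] at h2
    linarith

theorem int_sech : Integrable (fun p : ℝ => 1 / Real.cosh p ^ 2) := by
  have h1 := (integrableOn_image_iff_integrableOn_abs_deriv_smul (s := univ) (f := ff)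
    (f' := fun p => 1 / (2 * Real.cosh p ^ 2)) MeasurableSet.univ
    (fun x _ => (ff_deriv x).hasDerivWithinAt) ff_inj.injOn (fun _ => (1 : ℝ))).mp (by
      rw [ff_image]
      exact (integrableOn_const (by simp) (by simp)))
  rw [integrableOn_univ] at h1
  have h2 := h1.const_mul 2
  refine h2.congr (Eventually.of_forall fun p => ?_)
  have h := Real.cosh_pos p
  simp only [smul_eq_mul, mul_one]
  rw [abs_of_pos (by positivity)]
  field_simp

theorem sech_beta (ω : ℝ) :
    ∫ p : ℝ, cexp (ω * p * I) * ((1 / Real.cosh p ^ 2 : ℝ) : ℂ) =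
      2 * betaIntegral (1 + ω / 2 * I) (1 - ω / 2 * I) := by
  have h1 := integral_image_eq_integral_abs_deriv_smul (s := univ) (f := ff)
    (f' := fun p => 1 / (2 * Real.cosh p ^ 2)) MeasurableSet.univ
    (fun x _ => (ff_deriv x).hasDerivWithinAt) ff_inj.injOn
    (fun x : ℝ => (x : ℂ) ^ (ω / 2 * I) * (1 - (x : ℂ)) ^ (-(ω / 2 * I)))
  rw [ff_image, Measure.restrict_univ] at h1
  have h2 : betaIntegral (1 + ω / 2 * I) (1 - ω / 2 * I) =
      ∫ x : ℝ in Ioo 0 1, (x : ℂ) ^ (ω / 2 * I) * (1 - (x : ℂ)) ^ (-(ω / 2 * I)) := by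
    rw [betaIntegral, intervalIntegral.integral_of_le zero_le_one, integral_Ioc_eq_integral_Ioo]
    congr 1
    funext x
    congr 2
    · ring
    · ring
  rw [h2, h1, ← integral_const_mul]
  congr 1
  funext p
  have hc := Real.cosh_pos p
  have hx := ff_pos p
  have hx' := ff_lt p
  have h3 : (1 - (ff p : ℂ)) = ((1 - ff p : ℝ) : ℂ) := by push_cast; ring
  have h4 : ((ff p : ℝ) : ℂ) ^ (ω / 2 * I) * (1 - (ff p : ℂ)) ^ (-(ω / 2 * I)) =
      cexp (ω * p * I) := by
    rw [h3, Complex.cpow_def_of_ne_zero (by exact_mod_cast hx.ne'),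
      Complex.cpow_def_of_ne_zero (by exact_mod_cast hx'.ne'), ← Complex.exp_add,
      ← Complex.ofReal_log hx.le, ← Complex.ofReal_log hx'.le]
    congr 1
    have h5 : Real.log (ff p) - Real.log (1 - ff p) = 2 * p := by
      rw [← Real.log_div hx.ne' hx'.ne', ff_ratio, Real.log_exp]
    have h6 : ((Real.log (ff p) : ℝ) : ℂ) - ((Real.log (1 - ff p) : ℝ) : ℂ) = 2 * p := by
      rw [← Complex.ofReal_sub, h5]
      push_cast
      ring
    linear_combination (ω / 2 * I) * h6
  rw [h4, abs_of_pos (by positivity), Complex.real_smul]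
  push_cast
  field_simp

theorem beta_val (ω : ℝ) (hω : 0 < ω) :
    betaIntegral (1 + ω / 2 * I) (1 - ω / 2 * I) =
      ((Real.pi * ω / 2 / Real.sinh (Real.pi * ω / 2) : ℝ) : ℂ) := by
  have h1 := Gamma_mul_Gamma_eq_betaIntegral (s := 1 + ω / 2 * I) (t := 1 - ω / 2 * I)
    (by simp) (by simp)
  have h2 : (1 + ω / 2 * I) + (1 - ω / 2 * I) = ((1 : ℂ) + 1) := by ring
  rw [h2, Complex.Gamma_add_one 1 one_ne_zero, Complex.Gamma_one, one_mul, one_mul] at h1
  have hne : (ω / 2 * I : ℂ) ≠ 0 := by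
    have : (ω : ℂ) ≠ 0 := by exact_mod_cast hω.ne'
    simp [this]
  rw [← h1, add_comm (1 : ℂ), Complex.Gamma_add_one _ hne, mul_assoc,
    Complex.Gamma_mul_Gamma_one_sub]
  have h3 : Complex.sin (Real.pi * (ω / 2 * I)) = Complex.sinh (Real.pi * ω / 2) * I := by
    rw [← Complex.sin_mul_I]
    congr 1
    ring
  rw [h3]
  have h4 : Complex.sinh (Real.pi * ω / 2) ≠ 0 := by
    have h5 : Real.sinh (Real.pi * ω / 2) ≠ 0 := by
      have : 0 < Real.sinh (Real.pi * ω / 2) := Real.sinh_pos_iff.mpr (by positivity)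
      exact this.ne'
    have h6 : Complex.sinh (Real.pi * ω / 2) = ((Real.sinh (Real.pi * ω / 2) : ℝ) : ℂ) := by
      push_cast
      ring_nf
    rw [h6]
    exact_mod_cast h5
  push_cast
  field_simp

theorem int_cexp (ω : ℝ) :
    Integrable (fun p : ℝ => cexp (ω * p * I) * ((1 / Real.cosh p ^ 2 : ℝ) : ℂ)) := by
  have h1 : Integrable (fun p : ℝ => ((1 / Real.cosh p ^ 2 : ℝ) : ℂ)) := int_sech.ofReal
  refine h1.bdd_mul (c := 1) (by fun_prop) (Eventually.of_forall fun p => ?_)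
  have h2 : (ω * p * I : ℂ) = ((ω * p : ℝ) : ℂ) * I := by push_cast; ring
  rw [h2, Complex.norm_exp_ofReal_mul_I]

theorem sech_ft (ω : ℝ) :
    Integrable (fun p : ℝ => Real.cos (ω * p) / Real.cosh p ^ 2) ∧
    (0 < ω → ∫ p : ℝ, Real.cos (ω * p) / Real.cosh p ^ 2 =
      Real.pi * ω / Real.sinh (Real.pi * ω / 2)) ∧
    (ω = 0 → ∫ p : ℝ, Real.cos (ω * p) / Real.cosh p ^ 2 = 2) := by
  have h1 : ∀ p : ℝ, Real.cos (ω * p) / Real.cosh p ^ 2 =
      Complex.reCLM (cexp (ω * p * I) * ((1 / Real.cosh p ^ 2 : ℝ) : ℂ)) := by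
    intro p
    have h2 : (ω * p * I : ℂ) = ((ω * p : ℝ) : ℂ) * I := by push_cast; ring
    rw [h2, Complex.exp_mul_I, ← Complex.ofReal_cos, ← Complex.ofReal_sin, Complex.reCLM_apply,
      Complex.re_mul_ofReal, Complex.add_re, Complex.ofReal_re, Complex.mul_re, Complex.ofReal_re,
      Complex.ofReal_im, Complex.I_re, Complex.I_im]
    ring
  have h2 : Integrable (fun p : ℝ => Real.cos (ω * p) / Real.cosh p ^ 2) := by
    simp_rw [h1]
    exact Complex.reCLM.integrable_comp (int_cexp ω)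
  have h3 : ∫ p : ℝ, Real.cos (ω * p) / Real.cosh p ^ 2 =
      (2 * betaIntegral (1 + ω / 2 * I) (1 - ω / 2 * I)).re := by
    simp_rw [h1]
    rw [Complex.reCLM.integral_comp_comm (int_cexp ω), sech_beta]
    rfl
  refine ⟨h2, fun hω => ?_, fun hω => ?_⟩
  · rw [h3, beta_val ω hω, ← Complex.ofReal_ofNat, ← Complex.ofReal_mul, Complex.ofReal_re]
    ring
  · rw [h3, hω]
    simp only [Complex.ofReal_zero, zero_div, zero_mul, add_zero, sub_zero]
    rw [betaIntegral_eval_one_right (by simp)]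
    simp

/-- the change of variables -/
noncomputable def LL : (ℝ × ℝ) ≃ᵐ (ℝ × ℝ) where
  toFun p := (p.1 + p.2, p.1 - p.2)
  invFun p := ((p.1 + p.2) / 2, (p.1 - p.2) / 2)
  left_inv p := by
    ext
    · simp only
      ring
    · simp only
      ring
  right_inv p := by
    ext
    · simp only
      ring
    · simp only
      ring
  measurable_toFun := by
    simp only [Equiv.coe_fn_mk]
    fun_prop
  measurable_invFun := by
    simp only [Equiv.coe_fn_symm_mk]
    fun_prop

theorem LL_apply (p : ℝ × ℝ) : LL p = (p.1 + p.2, p.1 - p.2) := rfl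

theorem map_LL : Measure.map LL (volume : Measure (ℝ × ℝ)) = ENNReal.ofReal (1 / 2) • volume := by
  let f : ℝ × ℝ →ₗ[ℝ] ℝ × ℝ :=
    Matrix.toLin (Module.Basis.finTwoProd ℝ) (Module.Basis.finTwoProd ℝ) !![1, 1; 1, -1]
  have hdet : LinearMap.det f = -2 := by
    rw [LinearMap.det_toLin, Matrix.det_fin_two_of]
    norm_num
  have h1 := Measure.map_linearMap_addHaar_eq_smul_addHaar (volume : Measure (ℝ × ℝ)) (f := f)
    (by rw [hdet]; norm_num)
  have h2 : (f : ℝ × ℝ → ℝ × ℝ) = LL := by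
    funext p
    rw [LL_apply]
    change Matrix.toLin (Module.Basis.finTwoProd ℝ) (Module.Basis.finTwoProd ℝ) !![1, 1; 1, -1] p = _
    rw [Matrix.toLin_finTwoProd_apply]
    ext
    · simp
    · simp
      ring
  rw [h2, hdet] at h1
  rw [h1]
  norm_num

theorem chg_int (G : ℝ × ℝ → ℝ) : Integrable (fun p => G (LL p)) ↔ Integrable G := by
  have h1 := LL.measurableEmbedding.integrable_map_iff (μ := (volume : Measure (ℝ × ℝ))) (g := G)
  rw [map_LL, integrable_smul_measure (by simp) (by simp)] at h1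
  exact h1.symm

theorem chg_eq (G : ℝ × ℝ → ℝ) : ∫ p, G p = 2 * ∫ p, G (LL p) := by
  have h1 := LL.measurableEmbedding.integral_map (μ := (volume : Measure (ℝ × ℝ))) G
  rw [map_LL, integral_smul_measure, ENNReal.toReal_ofReal (by norm_num), smul_eq_mul] at h1
  rw [← h1]
  ring

theorem cosh_add_sub (p q : ℝ) : Real.cosh (p + q) + Real.cosh (p - q) = 2 * Real.cosh p * Real.cosh q := by
  rw [Real.cosh_add, Real.cosh_sub]
  ring

theorem cos_add_sub (a b : ℝ) : Real.cos (a + b) * Real.cos (a - b) =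
    (Real.cos (2 * a) + Real.cos (2 * b)) / 2 := by
  rw [Real.cos_add, Real.cos_sub, Real.cos_two_mul, Real.cos_two_mul]
  have h1 := Real.sin_sq_add_cos_sq a
  have h2 := Real.sin_sq_add_cos_sq b
  have h3 : Real.sin a ^ 2 = 1 - Real.cos a ^ 2 := by linarith
  have h4 : Real.sin b ^ 2 = 1 - Real.cos b ^ 2 := by linarith
  have h5 : (Real.cos a * Real.cos b - Real.sin a * Real.sin b) *
      (Real.cos a * Real.cos b + Real.sin a * Real.sin b) =
      Real.cos a ^ 2 * Real.cos b ^ 2 - Real.sin a ^ 2 * Real.sin b ^ 2 := by ring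
  rw [h5, h3, h4]
  ring

theorem int_c2 : Integrable (fun y : ℝ × ℝ => 1 / (Real.cosh y.1 + Real.cosh y.2) ^ 2) := by
  rw [← chg_int]
  have h1 := (int_sech.mul_prod int_sech).const_mul (1 / 4)
  refine h1.congr (Eventually.of_forall fun p => ?_)
  simp only [LL_apply]
  rw [cosh_add_sub]
  have h2 := Real.cosh_pos p.1
  have h3 := Real.cosh_pos p.2
  field_simp
  ring

/-- the double integral -/
theorem dbl (τ : ℝ) (hτ : 0 < τ) :
    ∫ y : ℝ × ℝ, Real.cos (τ * y.1) * Real.cos (τ * y.2) / (Real.cosh y.1 + Real.cosh y.2) ^ 2 =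
      2 * Real.pi * τ / Real.sinh (Real.pi * τ) := by
  rw [chg_eq]
  obtain ⟨hA, hA1, -⟩ := sech_ft (2 * τ)
  obtain ⟨hB, -, hB1⟩ := sech_ft 0
  have hA1 := hA1 (by positivity)
  have hB1 := hB1 rfl
  have h1 : ∀ p : ℝ × ℝ, Real.cos (τ * (LL p).1) * Real.cos (τ * (LL p).2) /
      (Real.cosh (LL p).1 + Real.cosh (LL p).2) ^ 2 =
      1 / 8 * (Real.cos (2 * τ * p.1) / Real.cosh p.1 ^ 2 * (Real.cos (0 * p.2) / Real.cosh p.2 ^ 2)) +
      1 / 8 * (Real.cos (0 * p.1) / Real.cosh p.1 ^ 2 * (Real.cos (2 * τ * p.2) / Real.cosh p.2 ^ 2)) := by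
    intro p
    simp only [LL_apply]
    rw [cosh_add_sub, mul_add, mul_sub, cos_add_sub]
    have h2 := Real.cosh_pos p.1
    have h3 := Real.cosh_pos p.2
    rw [zero_mul, zero_mul, Real.cos_zero]
    field_simp
    ring
  simp_rw [h1]
  have hI1 : Integrable (fun p : ℝ × ℝ => 1 / 8 * (Real.cos (2 * τ * p.1) / Real.cosh p.1 ^ 2 *
      (Real.cos (0 * p.2) / Real.cosh p.2 ^ 2))) := (hA.mul_prod hB).const_mul _
  have hI2 : Integrable (fun p : ℝ × ℝ => 1 / 8 * (Real.cos (0 * p.1) / Real.cosh p.1 ^ 2 *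
      (Real.cos (2 * τ * p.2) / Real.cosh p.2 ^ 2))) := (hB.mul_prod hA).const_mul _
  have e1 := integral_prod_mul (μ := (volume : Measure ℝ)) (ν := (volume : Measure ℝ))
    (fun p : ℝ => Real.cos (2 * τ * p) / Real.cosh p ^ 2) (fun q : ℝ => Real.cos (0 * q) / Real.cosh q ^ 2)
  have e2 := integral_prod_mul (μ := (volume : Measure ℝ)) (ν := (volume : Measure ℝ))
    (fun q : ℝ => Real.cos (0 * q) / Real.cosh q ^ 2) (fun p : ℝ => Real.cos (2 * τ * p) / Real.cosh p ^ 2)
  rw [← Measure.volume_eq_prod] at e1 e2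
  rw [integral_add hI1 hI2, integral_const_mul, integral_const_mul, e1, e2, hA1, hB1]
  have h4 : Real.pi * (2 * τ) / 2 = Real.pi * τ := by ring
  rw [h4]
  ring

theorem full_line (τ r : ℝ) :
    ∫ v : ℝ, Real.exp (-(r * Real.cosh v)) * Real.cos (τ * v) =
      2 * ∫ v in Set.Ioi (0 : ℝ), Real.exp (-(r * Real.cosh v)) * Real.cos (τ * v) := by
  rw [← integral_comp_abs (f := fun v => Real.exp (-(r * Real.cosh v)) * Real.cos (τ * v))]
  congr 1
  funext v
  rw [Real.cosh_abs]
  congr 1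
  rcases abs_choice v with h | h
  · rw [h]
  · rw [h, mul_neg, Real.cos_neg]

/-- the elementary integral -/
theorem elem (c : ℝ) (hc : 0 < c) :
    IntegrableOn (fun r : ℝ => r * Real.exp (-(r * c))) (Set.Ioi 0) ∧
      ∫ r in Set.Ioi (0 : ℝ), r * Real.exp (-(r * c)) = 1 / c ^ 2 := by
  constructor
  · have h1 := integrableOn_rpow_mul_exp_neg_mul_rpow (s := 1) (p := 1) (b := c) (by norm_num)
      one_pos hc
    refine h1.congr_fun (fun r _ => ?_) measurableSet_Ioi
    simp only [Real.rpow_one]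
    congr 2
    ring
  · have h1 := Real.integral_rpow_mul_exp_neg_mul_Ioi (a := 2) (r := c) (by norm_num) hc
    rw [show (2 : ℝ) - 1 = 1 by norm_num] at h1
    simp only [Real.rpow_one] at h1
    have h2 : ∀ r : ℝ, r * Real.exp (-(r * c)) = r * Real.exp (-(c * r)) := by
      intro r
      rw [mul_comm r c]
    simp_rw [h2]
    rw [h1, Real.Gamma_two]
    simp

/-- the triple integral -/
theorem triple (τ : ℝ) :
    IntegrableOn (fun r : ℝ => r * (∫ v in Set.Ioi (0 : ℝ),
      Real.exp (-(r * Real.cosh v)) * Real.cos (τ * v)) ^ 2) (Set.Ioi 0) ∧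
    4 * ∫ r in Set.Ioi (0 : ℝ), r * (∫ v in Set.Ioi (0 : ℝ),
      Real.exp (-(r * Real.cosh v)) * Real.cos (τ * v)) ^ 2 =
      ∫ y : ℝ × ℝ, Real.cos (τ * y.1) * Real.cos (τ * y.2) /
        (Real.cosh y.1 + Real.cosh y.2) ^ 2 := by
  let H : ℝ × (ℝ × ℝ) → ℝ := fun z => z.1 *
    ((Real.exp (-(z.1 * Real.cosh z.2.1)) * Real.cos (τ * z.2.1)) *
      (Real.exp (-(z.1 * Real.cosh z.2.2)) * Real.cos (τ * z.2.2)))
  have hHc : Continuous H := by
    simp only [H]
    fun_prop
  have hH : ∀ (r : ℝ) (y : ℝ × ℝ), H (r, y) = r * Real.exp (-(r * (Real.cosh y.1 + Real.cosh y.2))) *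
      (Real.cos (τ * y.1) * Real.cos (τ * y.2)) := by
    intro r y
    simp only [H]
    rw [mul_add, neg_add, Real.exp_add]
    ring
  have hcpos : ∀ y : ℝ × ℝ, 0 < Real.cosh y.1 + Real.cosh y.2 := fun y =>
    add_pos (Real.cosh_pos _) (Real.cosh_pos _)
  have hnorm : ∀ y : ℝ × ℝ, ∫ r in Set.Ioi (0 : ℝ), ‖H (r, y)‖ =
      1 / (Real.cosh y.1 + Real.cosh y.2) ^ 2 * |Real.cos (τ * y.1) * Real.cos (τ * y.2)| := by
    intro y
    rw [← (elem _ (hcpos y)).2, ← integral_mul_const]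
    refine setIntegral_congr_fun measurableSet_Ioi fun r hr => ?_
    have hr' : (0 : ℝ) < r := hr
    rw [hH, Real.norm_eq_abs, abs_mul, abs_of_pos (mul_pos hr' (Real.exp_pos _))]
  have hint : Integrable H ((volume.restrict (Set.Ioi (0 : ℝ))).prod volume) := by
    rw [integrable_prod_iff' hHc.aestronglyMeasurable]
    constructor
    · refine Eventually.of_forall fun y => ?_
      have h1 := ((elem _ (hcpos y)).1).mul_const (Real.cos (τ * y.1) * Real.cos (τ * y.2))
      refine h1.congr (Eventually.of_forall fun r => ?_)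
      simp only
      rw [hH]
    · simp_rw [hnorm]
      refine int_c2.mul_bdd (c := 1) ?_ (Eventually.of_forall fun y => ?_)
      · exact Continuous.aestronglyMeasurable (by fun_prop)
      · rw [Real.norm_eq_abs, abs_abs, abs_mul]
        exact mul_le_one₀ (Real.abs_cos_le_one _) (abs_nonneg _) (Real.abs_cos_le_one _)
  have hinner : ∀ r : ℝ, ∫ y : ℝ × ℝ, H (r, y) = 4 * (r * (∫ v in Set.Ioi (0 : ℝ),
      Real.exp (-(r * Real.cosh v)) * Real.cos (τ * v)) ^ 2) := by
    intro r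
    simp only [H]
    rw [integral_const_mul]
    have h1 := integral_prod_mul (μ := (volume : Measure ℝ)) (ν := (volume : Measure ℝ))
      (fun v : ℝ => Real.exp (-(r * Real.cosh v)) * Real.cos (τ * v))
      (fun v : ℝ => Real.exp (-(r * Real.cosh v)) * Real.cos (τ * v))
    rw [← Measure.volume_eq_prod] at h1
    rw [h1, full_line]
    ring
  constructor
  · have h1 := hint.integral_prod_left
    simp_rw [hinner] at h1
    have h2 := h1.const_mul (1 / 4)
    refine h2.congr (Eventually.of_forall fun r => ?_)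
    simp only
    ring
  · rw [← integral_const_mul]
    simp_rw [← hinner]
    rw [integral_integral_swap hint]
    congr 1
    funext y
    have h3 : ∫ r in Set.Ioi (0 : ℝ), H (r, y) = ∫ r in Set.Ioi (0 : ℝ),
        r * Real.exp (-(r * (Real.cosh y.1 + Real.cosh y.2))) *
          (Real.cos (τ * y.1) * Real.cos (τ * y.2)) := by
      congr 1
      funext r
      exact hH r y
    rw [h3, integral_mul_const, (elem _ (hcpos y)).2]
    ring

theorem crm : CrmStmt := by
  intro τ hτ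
  obtain ⟨h1, h2⟩ := triple τ
  rw [dbl τ hτ] at h2
  refine ⟨h1, ?_⟩
  change ∫ r in Set.Ioi (0 : ℝ), r * (∫ v in Set.Ioi (0 : ℝ),
      Real.exp (-(r * Real.cosh v)) * Real.cos (τ * v)) ^ 2 = _
  have h3 : Real.sinh (Real.pi * τ) ≠ 0 := by
    have : 0 < Real.sinh (Real.pi * τ) := Real.sinh_pos_iff.mpr (by positivity)
    exact this.ne'
  rw [eq_div_iff (by simpa using h3)]
  rw [eq_div_iff h3] at h2
  linarith

end Pool.Agent.QUD.H25
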