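import Pool.Agent.QUD.StmtsL

/-!
# Row LEV of squad QUD: the first level
-/

set_option autoImplicit false

namespace Pool.Agent.QUD.H25

open MeasureTheory Complex Filter Topology ProbabilityTheory Pool.Agent.H16Iso Pool.Agent.H62T
open Pool.Agent.H16F (Sublin ind)
open Pool.Agent.AEU Pool.Agent.XQ Pool.Agent.QUD

/-- a common positive number for finitely many monotone properties -/
theorem finmin {α : Type} (s : Finset α) (p : α → ℝ → Prop)
    (h : ∀ a ∈ s, ∃ δ > 0, p a δ) (hm : ∀ a δ δ', p a δ → δ' ≤ δ → p a δ') :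
    ∃ δ > 0, ∀ a ∈ s, p a δ := by
  classical
  induction s using Finset.induction_on with
  | empty => exact ⟨1, one_pos, by simp⟩
  | insert a s ha ih =>
    obtain ⟨δ1, h1, h1'⟩ := h a (Finset.mem_insert_self _ _)
    obtain ⟨δ2, h2, h2'⟩ := ih fun b hb => h b (Finset.mem_insert_of_mem hb)
    refine ⟨min δ1 δ2, lt_min h1 h2, fun b hb => ?_⟩
    rcases Finset.mem_insert.mp hb with rfl | hb
    · exact hm _ _ _ h1' (min_le_left _ _)
    · exact hm _ _ _ (h2' b hb) (min_le_right _ _)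

theorem below_iff (X : Finset HP) (L : ℝ) : Below X L ↔ ∀ l, Hit X l → L ≤ l := by
  constructor
  · rintro hB l ⟨h, hs, hf, hl, hc⟩
    by_contra hlt
    push Not at hlt
    obtain ⟨h1, h2⟩ := hB h hs hf (hl.trans_lt hlt)
    rcases hc with hc | ⟨a, ha, a', ha', hne, hd⟩
    · omega
    · exact h2 a ha a' ha' hne hd
  · intro hB h hs hf hl
    constructor
    · by_contra hc
      push Not at hc
      exact absurd (hB (lam h) ⟨h, hs, hf, rfl, Or.inl hc⟩) (not_le.mpr hl)
    · intro a ha a' ha' hne hd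
      exact absurd (hB (lam h) ⟨h, hs, hf, rfl, Or.inr ⟨a, ha, a', ha', hne, hd⟩⟩) (not_le.mpr hl)

/-- there is a body touching three sides -/
theorem hit_ex (hul : HulStatement) (mixS : MixStatement) {X : Finset HP} (hX : Pg X) :
    ∃ l, Hit X l := by
  obtain ⟨S, hS, hcard⟩ := Finset.exists_subset_card_eq hX.card
  obtain ⟨a, b, c, hab, hac, hbc, rfl⟩ := Finset.card_eq_three.mp hcard
  have ha : a ∈ X := hS (by simp)
  have hb : b ∈ X := hS (by simp)
  have hc : c ∈ X := hS (by simp)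
  have key : ∀ s ∈ X, ∃ x ∈ Cl X, ip s.1 x = s.2 := by
    intro s hs
    obtain ⟨x, hx, hx'⟩ := hX.side s hs
    refine ⟨x, fun t ht => ?_, hx⟩
    by_cases hts : t = s
    · rw [hts]
      exact hx.le
    · exact (hx' t ht hts).le
  obtain ⟨x, hxC, hx⟩ := key a ha
  obtain ⟨y, hyC, hy⟩ := key b hb
  obtain ⟨z, hzC, hz⟩ := key c hc
  obtain ⟨hfit, htouch⟩ := (mixS X).2.2 2 ![x, y, z] (by
    intro i
    fin_cases i
    · exact hxC
    · exact hyC
    · exact hzC)
  refine ⟨_, hf ![x, y, z], (hul 2 ![x, y, z]).1, hfit, rfl, Or.inl ?_⟩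
  have h3 : ({a, b, c} : Finset HP).card = 3 := hcard
  rw [← h3]
  apply Finset.card_le_card
  intro s hs
  rw [htouch]
  rw [Finset.mem_insert, Finset.mem_insert, Finset.mem_singleton] at hs
  rcases hs with rfl | rfl | rfl
  · exact ⟨ha, 0, hx⟩
  · exact ⟨hb, 1, hy⟩
  · exact ⟨hc, 2, hz⟩

/-- one polygon -/
theorem one (seg : SegStmt) (vxx : VxxStatement) (utx : UtxStatement) (hul : HulStatement)
    (per : PerStatement) (lamS : LamStatement) (mixS : MixStatement) {X : Finset HP} (hX : Pg X) :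
    ∃ L, 0 < L ∧ Hit X L ∧ ∀ l, Hit X l → L ≤ l := by
  classical
  obtain ⟨l0, hl0⟩ := hit_ex hul mixS hX
  have hbdd : BddBelow {l | Hit X l} := by
    refine ⟨0, ?_⟩
    rintro l ⟨h, hs, -, rfl, -⟩
    exact lamS.2.2.1 h hs
  set m := sInf {l | Hit X l} with hm
  have hml : ∀ l, Hit X l → m ≤ l := fun l hl => csInf_le hbdd hl
  have hmin : Hit X m := by
    by_contra hno
    have hstrict : ∀ l, Hit X l → m < l := fun l hl => (hml l hl).lt_of_ne fun h => hno (h ▸ hl)
    obtain ⟨δ1, hδ1, h1⟩ := finmin (X.powersetCard 3)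
      (fun S δ => ∀ h, Sublin h → Fits X h → S ⊆ touch X h → m + δ ≤ lam h)
      (fun S hS => by
        rw [Finset.mem_powersetCard] at hS
        refine utx X hX S m hS.1 hS.2 ?_
        rintro ⟨h, hs, hf, hSt, hle⟩
        have h2 : Hit X (lam h) := ⟨h, hs, hf, rfl, Or.inl (hS.2 ▸ Finset.card_le_card hSt)⟩
        exact absurd hle (not_le.mpr (hstrict _ h2)))
      (fun S δ δ' h hle k hs hf hSt => by linarith [h k hs hf hSt])
    obtain ⟨δ2, hδ2, h2⟩ := finmin ((X ×ˢ X).filter fun p => p.1 ≠ p.2 ∧ dt p.1.1 p.2.1 = 0)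
      (fun p δ => ∀ h, Sublin h → Fits X h → p.1 ∈ touch X h → p.2 ∈ touch X h → m + δ ≤ lam h)
      (fun p hp => by
        rw [Finset.mem_filter, Finset.mem_product] at hp
        obtain ⟨⟨hp1, hp2⟩, hne, hd⟩ := hp
        obtain ⟨x, -, y, -, -, -, -, hsub, hfit, ht1, ht2, hlen, hall⟩ := seg X hX p.1 hp1 p.2 hp2
        have h3 : Hit X (lam (hf ![x, y])) :=
          ⟨_, hsub, hfit, rfl, Or.inr ⟨p.1, ht1, p.2, ht2, hne, hd⟩⟩
        have h4 := hstrict _ h3
        refine ⟨lam (hf ![x, y]) - m, by linarith, fun h hs hf' ha ha' => ?_⟩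
        have h5 := hall h hs hf' ha ha'
        rw [← hlen] at h5
        linarith)
      (fun p δ δ' h hle k hs hf ha ha' => by linarith [h k hs hf ha ha'])
    have hlt : sInf {l | Hit X l} < m + min δ1 δ2 := by
      rw [← hm]
      linarith [lt_min hδ1 hδ2]
    obtain ⟨l, hl, hlm⟩ := exists_lt_of_csInf_lt ⟨l0, hl0⟩ hlt
    obtain ⟨h, hs, hf, rfl, hc⟩ := hl
    rcases hc with hc | ⟨a, ha, a', ha', hne, hd⟩
    · obtain ⟨S, hS, hScard⟩ := Finset.exists_subset_card_eq hc
      have hSX : S ∈ X.powersetCard 3 := by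
        rw [Finset.mem_powersetCard]
        exact ⟨hS.trans (Finset.filter_subset _ _), hScard⟩
      have := h1 S hSX h hs hf hS
      linarith [min_le_left δ1 δ2]
    · have hmem : (a, a') ∈ (X ×ˢ X).filter fun p => p.1 ≠ p.2 ∧ dt p.1.1 p.2.1 = 0 := by
        rw [Finset.mem_filter, Finset.mem_product]
        exact ⟨⟨(Finset.mem_filter.mp ha).1, (Finset.mem_filter.mp ha').1⟩, hne, hd⟩
      have := h2 _ hmem h hs hf ha ha'
      linarith [min_le_right δ1 δ2]
  refine ⟨m, ?_, hmin, hml⟩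
  obtain ⟨h, hs, hft, hlm, hc⟩ := hmin
  by_contra hm0
  have hm0' : lam h ≤ 0 := by
    rw [hlm]
    exact not_lt.mp hm0
  obtain ⟨v1, -, -, -, v5, -, -, -, -, -, v11⟩ := vxx X hX
  -- all contact points agree
  have hagree : ∀ x y, In x h → In y h → x = y := by
    intro x y hx hy
    have h1 := hul 1 ![x, y]
    have h2 : ∀ w, hf ![x, y] w ≤ h w := h1.2.2.2.1 h (by
      intro i
      fin_cases i
      · exact hx
      · exact hy)
    have h3 := (lamS.2.1 _ _ h1.1 hs h2).1
    rw [per.1] at h3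
    have h4 : ‖x - y‖ ≤ 0 := by linarith
    exact sub_eq_zero.mp (norm_le_zero_iff.mp h4)
  rcases hc with hc | ⟨a, ha, a', ha', hne, hd⟩
  · obtain ⟨S, hS, hScard⟩ := Finset.exists_subset_card_eq hc
    obtain ⟨a, b, c, hab, hac, hbc, rfl⟩ := Finset.card_eq_three.mp hScard
    have ha : a ∈ touch X h := hS (by simp)
    have hb : b ∈ touch X h := hS (by simp)
    have hc' : c ∈ touch X h := hS (by simp)
    obtain ⟨x, hx1, hx2, hx3⟩ := v11 h hs hft a ha
    obtain ⟨y, hy1, hy2, hy3⟩ := v11 h hs hft b hb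
    obtain ⟨z, hz1, hz2, hz3⟩ := v11 h hs hft c hc'
    have hxy := hagree x y hx1 hy1
    have hxz := hagree x z hx1 hz1
    subst hxy
    subst hxz
    have hv : VxOf X a b x :=
      ⟨hx2, (Finset.mem_filter.mp ha).1, (Finset.mem_filter.mp hb).1, hab, hx3, hy3⟩
    rcases v1 a b x hv c (Finset.mem_filter.mp hc').1 hz3 with h5 | h5
    · exact hac h5.symm
    · exact hbc h5.symm
  · obtain ⟨x, hx1, hx2, hx3⟩ := v11 h hs hft a ha
    obtain ⟨y, hy1, hy2, hy3⟩ := v11 h hs hft a' ha'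
    have hxy := hagree x y hx1 hy1
    subst hxy
    have hv : VxOf X a a' x :=
      ⟨hx2, (Finset.mem_filter.mp ha).1, (Finset.mem_filter.mp ha').1, hne, hx3, hy3⟩
    exact (v5 a a' x hv).2.2 hd

theorem lev (seg : SegStmt) (vxx : VxxStatement) (utx : UtxStatement) (hul : HulStatement)
    (per : PerStatement) (lamS : LamStatement) (mixS : MixStatement) : LevStmt := by
  intro P Q hP hQ
  obtain ⟨L, hL0, hL1, hL2⟩ := one seg vxx utx hul per lamS mixS hP
  obtain ⟨M, hM0, hM1, hM2⟩ := one seg vxx utx hul per lamS mixS hQ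
  rcases le_total L M with h | h
  · exact ⟨L, hL0, (below_iff P L).mpr hL2, (below_iff Q L).mpr fun l hl => h.trans (hM2 l hl),
      Or.inl hL1⟩
  · exact ⟨M, hM0, (below_iff P M).mpr fun l hl => h.trans (hL2 l hl), (below_iff Q M).mpr hM2,
      Or.inr hM1⟩

end Pool.Agent.QUD.H25
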